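import Pool.Agent.Helper16.NR.Stmts3
import Pool.Agent.Helper13.Hall.Divisor

set_option autoImplicit false

/-! # Few further points on average (module BAD3) -/

namespace Pool.Helper16.NR

open Finset

/-- the product of the four differences -/
def b3_E (a b k p r : ℤ) : ℤ := p * r * (p - 4 * k * a) * (r + 4 * a * b)

/-- the sum of the two factors is twice this number -/
def b3_Z (t : ℕ × ℕ × ℕ × ℕ × ℕ) (x : ℤ) : ℤ :=
  2 * ca t ^ 2 * (x - c3 t) + 2 * ca t * (cb t * (x - c1 t) - ck t * (x - c5 t) -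
        4 * ck t * ca t * cb t) + (x - c1 t) * (x - c5 t)

/-- the value `E` at a point -/
def b3_ET (t : ℕ × ℕ × ℕ × ℕ × ℕ) (x : ℤ) : ℤ :=
  b3_E (ca t) (cb t) (ck t) (x - c1 t) (x - c5 t)

theorem b3_key (hID : ST_ID3) {m : ℕ} {t : ℕ × ℕ × ℕ × ℕ × ℕ} {x : ℤ} (h : Ext3 m t x) :
    b3_ET t x ≠ 0 ∧ ∃ d e : ℤ, d * e = b3_ET t x ∧ d + e = 2 * b3_Z t x := by
  obtain ⟨_, h1, h2, _, _, h5, h6, y, hy⟩ := h
  have hE : b3_ET t x = (x - c1 t) * (x - c5 t) * (x - c2 t) * (x - c6 t) := by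
    unfold b3_ET b3_E c2 c6
    ring
  constructor
  · rw [hE]
    exact mul_ne_zero (mul_ne_zero (mul_ne_zero (sub_ne_zero.2 h1) (sub_ne_zero.2 h5))
      (sub_ne_zero.2 h2)) (sub_ne_zero.2 h6)
  · refine ⟨b3_Z t x - 2 * ca t * y, b3_Z t x + 2 * ca t * y, ?_, by ring⟩
    rw [hE]
    exact (hID t).2.2.2.2.2 x y hy

/-- the candidates for the divisor -/
noncomputable def b3_D (E : ℤ) : Finset ℤ :=
  (E.natAbs.divisors.image fun n : ℕ => (n : ℤ)) ∪ (E.natAbs.divisors.image fun n : ℕ => -(n : ℤ))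

theorem b3_memD {E d e : ℤ} (hE : E ≠ 0) (h : d * e = E) : d ∈ b3_D E := by
  have h1 : d.natAbs ∈ E.natAbs.divisors := by
    rw [Nat.mem_divisors]
    exact ⟨Int.natAbs_dvd_natAbs.2 ⟨e, h.symm⟩, Int.natAbs_ne_zero.2 hE⟩
  unfold b3_D
  rcases Int.natAbs_eq d with h2 | h2
  · exact mem_union_left _ (mem_image.2 ⟨_, h1, h2.symm⟩)
  · exact mem_union_right _ (mem_image.2 ⟨_, h1, h2.symm⟩)

theorem b3_cardD (E : ℤ) : (b3_D E).card ≤ 2 * E.natAbs.divisors.card := by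
  unfold b3_D
  refine (card_union_le _ _).trans ?_
  have h1 := card_image_le (s := E.natAbs.divisors) (f := fun n : ℕ => (n : ℤ))
  have h2 := card_image_le (s := E.natAbs.divisors) (f := fun n : ℕ => -(n : ℤ))
  omega

open scoped Classical in
/-- the further points -/
noncomputable def b3_X (m : ℕ) (t : ℕ × ℕ × ℕ × ℕ × ℕ) : Finset ℤ :=
  (Icc (-(2000000 * (m : ℤ) ^ 2)) (2000000 * (m : ℤ) ^ 2)).filter (fun x => Ext3 m t x)

theorem b3_memX {m : ℕ} {t : ℕ × ℕ × ℕ × ℕ × ℕ} {x : ℤ} : x ∈ b3_X m t ↔ Ext3 m t x := by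
  classical
  unfold b3_X
  rw [mem_filter, mem_Icc]
  exact ⟨fun h => h.2, fun h => ⟨abs_le.1 h.1, h⟩⟩

theorem b3_ne3 (m : ℕ) (t : ℕ × ℕ × ℕ × ℕ × ℕ) : ne3 m t = (b3_X m t).card := by
  unfold ne3
  have h : {x : ℤ | Ext3 m t x} = (b3_X m t : Set ℤ) := by
    ext x
    exact b3_memX.symm
  rw [h, Set.ncard_coe_finset]

/-- the parameters -/
noncomputable def b3_W (m : ℕ) : Finset (ℕ × ℕ × ℕ × ℤ × ℤ) :=
  (range m) ×ˢ (range m) ×ˢ (range m) ×ˢ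
    (Icc (-(4000000 * (m : ℤ) ^ 2)) (4000000 * (m : ℤ) ^ 2)) ×ˢ
    (Icc (-(4000000 * (m : ℤ) ^ 2)) (4000000 * (m : ℤ) ^ 2))

/-- `E` as a function of the parameters -/
def b3_EW (w : ℕ × ℕ × ℕ × ℤ × ℤ) : ℤ :=
  b3_E (385 * w.1 + 141) (385 * w.2.1 + 155) (385 * w.2.2.1 + 127) w.2.2.2.1 w.2.2.2.2

/-- the parameters of a pair -/
def b3_w (t : ℕ × ℕ × ℕ × ℕ × ℕ) (x : ℤ) : ℕ × ℕ × ℕ × ℤ × ℤ :=
  (t.1, t.2.1, t.2.2.1, x - c1 t, x - c5 t)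

theorem b3_EWw (t : ℕ × ℕ × ℕ × ℕ × ℕ) (x : ℤ) : b3_EW (b3_w t x) = b3_ET t x := rfl

theorem b3_memW {m : ℕ} (hm : 1 ≤ m) {t : ℕ × ℕ × ℕ × ℕ × ℕ} (ht : t ∈ T3 m) {x : ℤ}
    (hx : |x| ≤ 2000000 * (m : ℤ) ^ 2) : b3_w t x ∈ b3_W m := by
  obtain ⟨i, j, l, s, r⟩ := t
  unfold T3 at ht
  simp only [mem_product, mem_range] at ht
  obtain ⟨h1, h2, h3, h4, h5⟩ := ht
  unfold b3_W b3_w
  simp only [mem_product, mem_range, mem_Icc]
  have hm' : (1 : ℤ) ≤ m := by exact_mod_cast hm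
  have hi : (i : ℤ) + 1 ≤ m := by exact_mod_cast h1
  have hj : (j : ℤ) + 1 ≤ m := by exact_mod_cast h2
  have hl : (l : ℤ) + 1 ≤ m := by exact_mod_cast h3
  have hs : (s : ℤ) + 1 ≤ (m : ℤ) ^ 2 := by exact_mod_cast h4
  have hr : (r : ℤ) + 1 ≤ (m : ℤ) ^ 2 := by exact_mod_cast h5
  have hi0 : (0 : ℤ) ≤ i := Int.natCast_nonneg i
  have hj0 : (0 : ℤ) ≤ j := Int.natCast_nonneg j
  have hl0 : (0 : ℤ) ≤ l := Int.natCast_nonneg l
  have hs0 : (0 : ℤ) ≤ s := Int.natCast_nonneg s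
  have hr0 : (0 : ℤ) ≤ r := Int.natCast_nonneg r
  obtain ⟨hx1, hx2⟩ := abs_le.1 hx
  have hcl : |cl (i, j, l, s, r)| ≤ 1000 * (m : ℤ) := by
    unfold cl ca cb ck
    rw [abs_le]
    constructor
    · simp only
      linarith
    · simp only
      linarith
  have hcl2 : cl (i, j, l, s, r) ^ 2 ≤ 1000000 * (m : ℤ) ^ 2 := by
    have := sq_le_sq' (abs_le.1 hcl).1 (abs_le.1 hcl).2
    calc cl (i, j, l, s, r) ^ 2 ≤ (1000 * (m : ℤ)) ^ 2 := this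
      _ = 1000000 * (m : ℤ) ^ 2 := by ring
  have hcl0 : 0 ≤ cl (i, j, l, s, r) ^ 2 := sq_nonneg _
  have hc1 : c1 (i, j, l, s, r) = 385 * s + 231 := rfl
  have hc3 : c3 (i, j, l, s, r) = 385 * r + 23 := rfl
  have hc5 : c5 (i, j, l, s, r) = cl (i, j, l, s, r) ^ 2 - (385 * s + 231) - (385 * r + 23) := rfl
  rw [hc1, hc5]
  refine ⟨h1, h2, h3, ⟨?_, ?_⟩, ?_, ?_⟩ <;> linarith

theorem b3_bound {m : ℕ} (hm : 1 ≤ m) {w : ℕ × ℕ × ℕ × ℤ × ℤ} (hw : w ∈ b3_W m) :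
    (b3_EW w).natAbs ≤ (8000000 * m ^ 2) ^ 4 := by
  obtain ⟨i, j, l, p, r⟩ := w
  unfold b3_W at hw
  simp only [mem_product, mem_range, mem_Icc] at hw
  obtain ⟨h1, h2, h3, ⟨h4, h5⟩, h6, h7⟩ := hw
  have hi : (i : ℤ) + 1 ≤ m := by exact_mod_cast h1
  have hj : (j : ℤ) + 1 ≤ m := by exact_mod_cast h2
  have hl : (l : ℤ) + 1 ≤ m := by exact_mod_cast h3
  have hm' : (1 : ℤ) ≤ m := by exact_mod_cast hm
  have hi0 : (0 : ℤ) ≤ i := Int.natCast_nonneg i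
  have hj0 : (0 : ℤ) ≤ j := Int.natCast_nonneg j
  have hl0 : (0 : ℤ) ≤ l := Int.natCast_nonneg l
  have hm2 : (0 : ℤ) ≤ (m : ℤ) ^ 2 := sq_nonneg _
  have ha : (0 : ℤ) ≤ 385 * i + 141 ∧ (385 * i + 141 : ℤ) ≤ 385 * m := by
    constructor <;> linarith
  have hb : (0 : ℤ) ≤ 385 * j + 155 ∧ (385 * j + 155 : ℤ) ≤ 385 * m := by
    constructor <;> linarith
  have hk : (0 : ℤ) ≤ 385 * l + 127 ∧ (385 * l + 127 : ℤ) ≤ 385 * m := by
    constructor <;> linarith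
  have hka : (385 * l + 127 : ℤ) * (385 * i + 141) ≤ 385 * m * (385 * m) :=
    mul_le_mul hk.2 ha.2 ha.1 (by linarith)
  have hka0 : 0 ≤ (385 * l + 127 : ℤ) * (385 * i + 141) := mul_nonneg hk.1 ha.1
  have hab : (385 * i + 141 : ℤ) * (385 * j + 155) ≤ 385 * m * (385 * m) :=
    mul_le_mul ha.2 hb.2 hb.1 (by linarith)
  have hab0 : 0 ≤ (385 * i + 141 : ℤ) * (385 * j + 155) := mul_nonneg ha.1 hb.1
  have e0 : (385 * m * (385 * m) : ℤ) = 148225 * (m : ℤ) ^ 2 := by ring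
  rw [e0] at hka hab
  have k1 : |p| ≤ 8000000 * (m : ℤ) ^ 2 := abs_le.2 ⟨by linarith, by linarith⟩
  have k2 : |r| ≤ 8000000 * (m : ℤ) ^ 2 := abs_le.2 ⟨by linarith, by linarith⟩
  have k3 : |p - 4 * (385 * l + 127) * (385 * i + 141)| ≤ 8000000 * (m : ℤ) ^ 2 := by
    have e : (4 * (385 * l + 127) * (385 * i + 141) : ℤ) =
      4 * ((385 * l + 127) * (385 * i + 141)) := by ring
    rw [e]
    exact abs_le.2 ⟨by linarith, by linarith⟩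
  have k4 : |r + 4 * (385 * i + 141) * (385 * j + 155)| ≤ 8000000 * (m : ℤ) ^ 2 := by
    have e : (4 * (385 * i + 141) * (385 * j + 155) : ℤ) =
      4 * ((385 * i + 141) * (385 * j + 155)) := by ring
    rw [e]
    exact abs_le.2 ⟨by linarith, by linarith⟩
  have k5 : |b3_EW (i, j, l, p, r)| ≤ (8000000 * (m : ℤ) ^ 2) ^ 4 := by
    unfold b3_EW b3_E
    simp only [abs_mul]
    have n0 : (0 : ℤ) ≤ 8000000 * (m : ℤ) ^ 2 := by positivity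
    have k6 := mul_le_mul k1 k2 (abs_nonneg _) n0
    have k7 := mul_le_mul k6 k3 (abs_nonneg _) (mul_nonneg n0 n0)
    have k8 := mul_le_mul k7 k4 (abs_nonneg _) (mul_nonneg (mul_nonneg n0 n0) n0)
    refine le_trans k8 (le_of_eq (by ring))
  have k9 : ((b3_EW (i, j, l, p, r)).natAbs : ℤ) ≤ (((8000000 * m ^ 2) ^ 4 : ℕ) : ℤ) := by
    rw [Int.natCast_natAbs]
    push_cast
    exact k5
  exact_mod_cast k9

theorem b3_inj {m : ℕ} (hID : ST_ID3) (d : (ℕ × ℕ × ℕ × ℕ × ℕ) → ℤ → ℤ)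
    (hd : ∀ t x, Ext3 m t x → ∃ e : ℤ, d t x * e = b3_ET t x ∧ d t x + e = 2 * b3_Z t x)
    {t t' : ℕ × ℕ × ℕ × ℕ × ℕ} {x x' : ℤ} (h : Ext3 m t x) (h' : Ext3 m t' x')
    (hw : b3_w t x = b3_w t' x') (hdd : d t x = d t' x') : t = t' ∧ x = x' := by
  obtain ⟨e, he1, he2⟩ := hd t x h
  obtain ⟨e', he1', he2'⟩ := hd t' x' h'
  have hE : b3_ET t x = b3_ET t' x' := by rw [← b3_EWw, ← b3_EWw, hw]
  have hE0 := (b3_key hID h).1
  have hd0 : d t x ≠ 0 := fun h0 => hE0 (by rw [← he1, h0, zero_mul])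
  have hee : e = e' := by
    rw [← hdd, ← hE, ← he1] at he1'
    exact (mul_left_cancel₀ hd0 he1').symm
  have hZ : b3_Z t x = b3_Z t' x' := by
    rw [← hdd, ← hee] at he2'
    linarith
  obtain ⟨i, j, l, s, r⟩ := t
  obtain ⟨i', j', l', s', r'⟩ := t'
  unfold b3_w at hw
  simp only [Prod.mk.injEq] at hw
  obtain ⟨rfl, rfl, rfl, hp, hr⟩ := hw
  have ea : ca (i, j, l, s, r) = ca (i, j, l, s', r') := rfl
  have eb : cb (i, j, l, s, r) = cb (i, j, l, s', r') := rfl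
  have ek : ck (i, j, l, s, r) = ck (i, j, l, s', r') := rfl
  have el : cl (i, j, l, s, r) = cl (i, j, l, s', r') := rfl
  have ha0 : (0 : ℤ) < ca (i, j, l, s', r') := by
    have : (0 : ℤ) ≤ (i : ℤ) := Int.natCast_nonneg i
    have e : ca (i, j, l, s', r') = 385 * i + 141 := rfl
    rw [e]
    linarith
  have hq : x - c3 (i, j, l, s, r) = x' - c3 (i, j, l, s', r') := by
    unfold b3_Z at hZ
    rw [ea, eb, ek, hp, hr] at hZ
    have h2 : 2 * ca (i, j, l, s', r') ^ 2 * (x - c3 (i, j, l, s, r)) =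
        2 * ca (i, j, l, s', r') ^ 2 * (x' - c3 (i, j, l, s', r')) := by linarith
    have h3 : (2 * ca (i, j, l, s', r') ^ 2 : ℤ) ≠ 0 := mul_ne_zero two_ne_zero (pow_ne_zero 2 ha0.ne')
    exact mul_left_cancel₀ h3 h2
  have h5 : c5 (i, j, l, s, r) = cl (i, j, l, s, r) ^ 2 - c1 (i, j, l, s, r) -
      c3 (i, j, l, s, r) := rfl
  have h5' : c5 (i, j, l, s', r') = cl (i, j, l, s', r') ^ 2 - c1 (i, j, l, s', r') -
      c3 (i, j, l, s', r') := rfl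
  rw [h5, h5', el] at hr
  have hx : x = x' := by linarith
  have e1 : c1 (i, j, l, s, r) = 385 * s + 231 := rfl
  have e1' : c1 (i, j, l, s', r') = 385 * s' + 231 := rfl
  have e3 : c3 (i, j, l, s, r) = 385 * r + 23 := rfl
  have e3' : c3 (i, j, l, s', r') = 385 * r' + 23 := rfl
  rw [hx, e1, e1'] at hp
  rw [hx, e3, e3'] at hq
  have hs : s = s' := by
    have : (s : ℤ) = s' := by linarith
    exact_mod_cast this
  have hr' : r = r' := by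
    have : (r : ℤ) = r' := by linarith
    exact_mod_cast this
  exact ⟨by rw [hs, hr'], hx⟩

theorem b3_count (hID : ST_ID3) {m : ℕ} (hm : 1 ≤ m) :
    ∑ t ∈ T3 m, ne3 m t ≤ ∑ w ∈ b3_W m, (b3_D (b3_EW w)).card := by
  have hex : ∀ (t : ℕ × ℕ × ℕ × ℕ × ℕ) (x : ℤ), ∃ d : ℤ, Ext3 m t x →
      ∃ e : ℤ, d * e = b3_ET t x ∧ d + e = 2 * b3_Z t x := by
    intro t x
    by_cases h : Ext3 m t x
    · obtain ⟨_, d, e, h1, h2⟩ := b3_key hID h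
      exact ⟨d, fun _ => ⟨e, h1, h2⟩⟩
    · exact ⟨0, fun h' => absurd h' h⟩
  choose d hd using hex
  have h1 : ∑ t ∈ T3 m, ne3 m t = ((T3 m).sigma (fun t => b3_X m t)).card := by
    rw [card_sigma]
    exact sum_congr rfl fun t _ => b3_ne3 m t
  rw [h1, ← card_sigma]
  refine card_le_card_of_injOn (fun q => ⟨b3_w q.1 q.2, d q.1 q.2⟩) ?_ ?_
  · rintro ⟨t, x⟩ hq
    have hq' := mem_sigma.1 (mem_coe.1 hq)
    have hE := b3_memX.1 hq'.2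
    refine mem_coe.2 (mem_sigma.2 ⟨b3_memW hm hq'.1 hE.1, ?_⟩)
    obtain ⟨e, he, _⟩ := hd t x hE
    exact b3_memD (b3_key hID hE).1 he
  · rintro ⟨t, x⟩ hq ⟨t', x'⟩ hq' heq
    have k1 := b3_memX.1 (mem_sigma.1 (mem_coe.1 hq)).2
    have k2 := b3_memX.1 (mem_sigma.1 (mem_coe.1 hq')).2
    simp only [Sigma.mk.injEq, heq_eq_eq] at heq
    obtain ⟨h2, h3⟩ := b3_inj hID d hd k1 k2 heq.1 heq.2
    simp only at h2 h3
    rw [h2, h3]

theorem b3_cardW {m : ℕ} (hm : 1 ≤ m) : ((b3_W m).card : ℝ) ≤ 8000001 ^ 2 * (m : ℝ) ^ 7 := by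
  have h1 : ((Icc (-(4000000 * (m : ℤ) ^ 2)) (4000000 * (m : ℤ) ^ 2)).card : ℝ) ≤
      8000001 * (m : ℝ) ^ 2 := by
    rw [Int.card_Icc]
    have e : 4000000 * (m : ℤ) ^ 2 + 1 - -(4000000 * (m : ℤ) ^ 2) =
        ((8000000 * m ^ 2 + 1 : ℕ) : ℤ) := by
      push_cast
      ring
    rw [e, Int.toNat_natCast]
    push_cast
    have h2 : (1 : ℝ) ≤ (m : ℝ) ^ 2 := one_le_pow₀ (by exact_mod_cast hm)
    linarith
  unfold b3_W
  rw [card_product, card_product, card_product, card_product, card_range]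
  push_cast
  have hm0 : (0 : ℝ) ≤ m := Nat.cast_nonneg m
  have h3 : ((Icc (-(4000000 * (m : ℤ) ^ 2)) (4000000 * (m : ℤ) ^ 2)).card : ℝ) *
      ((Icc (-(4000000 * (m : ℤ) ^ 2)) (4000000 * (m : ℤ) ^ 2)).card : ℝ) ≤
      8000001 * (m : ℝ) ^ 2 * (8000001 * (m : ℝ) ^ 2) :=
    mul_le_mul h1 h1 (Nat.cast_nonneg _) (by positivity)
  calc (m : ℝ) * (m * (m * (((Icc (-(4000000 * (m : ℤ) ^ 2)) (4000000 * (m : ℤ) ^ 2)).card : ℝ) *
      ((Icc (-(4000000 * (m : ℤ) ^ 2)) (4000000 * (m : ℤ) ^ 2)).card : ℝ)))) ≤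
      m * (m * (m * (8000001 * (m : ℝ) ^ 2 * (8000001 * (m : ℝ) ^ 2)))) := by
        exact mul_le_mul_of_nonneg_left (mul_le_mul_of_nonneg_left
          (mul_le_mul_of_nonneg_left h3 hm0) hm0) hm0
    _ = 8000001 ^ 2 * (m : ℝ) ^ 7 := by ring

theorem st_BAD3 (hID : ST_ID3) : ST_BAD3 := by
  intro ε hε
  obtain ⟨C, hC1, hC⟩ := Pool.Agent.Helper13.Hall.divisor_bound (ε := ε / 8) (by positivity)
  refine ⟨8000001 ^ 2 * (2 * (C * ((8000000 : ℝ) ^ 4) ^ (ε / 8))), fun m hm => ?_⟩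
  have hm0 : (0 : ℝ) < m := by exact_mod_cast hm
  have h1 : (∑ t ∈ T3 m, (ne3 m t : ℝ)) ≤ ∑ w ∈ b3_W m, ((b3_D (b3_EW w)).card : ℝ) := by
    have := b3_count hID hm
    exact_mod_cast this
  have h2 : ∀ w ∈ b3_W m, ((b3_D (b3_EW w)).card : ℝ) ≤
      2 * (C * ((8000000 : ℝ) ^ 4) ^ (ε / 8)) * (m : ℝ) ^ ε := by
    intro w hw
    have k1 : ((b3_D (b3_EW w)).card : ℝ) ≤ 2 * ((b3_EW w).natAbs.divisors.card : ℝ) := by
      exact_mod_cast b3_cardD (b3_EW w)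
    have k2 := hC (b3_EW w).natAbs
    have k3 : (((b3_EW w).natAbs : ℕ) : ℝ) ≤ (8000000 : ℝ) ^ 4 * ((m : ℝ) ^ 8) := by
      have := b3_bound hm hw
      have k4 : (((b3_EW w).natAbs : ℕ) : ℝ) ≤ (((8000000 * m ^ 2) ^ 4 : ℕ) : ℝ) := by
        exact_mod_cast this
      refine k4.trans (le_of_eq ?_)
      push_cast
      ring
    have k5 : (((b3_EW w).natAbs : ℕ) : ℝ) ^ (ε / 8) ≤
        ((8000000 : ℝ) ^ 4) ^ (ε / 8) * (m : ℝ) ^ ε := by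
      refine (Real.rpow_le_rpow (Nat.cast_nonneg _) k3 (by positivity)).trans (le_of_eq ?_)
      rw [Real.mul_rpow (by positivity) (by positivity), ← Real.rpow_natCast (m : ℝ) 8,
        ← Real.rpow_mul hm0.le]
      congr 2
      push_cast
      ring
    calc ((b3_D (b3_EW w)).card : ℝ) ≤ 2 * ((b3_EW w).natAbs.divisors.card : ℝ) := k1
      _ ≤ 2 * (C * (((b3_EW w).natAbs : ℕ) : ℝ) ^ (ε / 8)) := by linarith
      _ ≤ 2 * (C * (((8000000 : ℝ) ^ 4) ^ (ε / 8) * (m : ℝ) ^ ε)) :=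
          mul_le_mul_of_nonneg_left (mul_le_mul_of_nonneg_left k5 (by linarith)) (by norm_num)
      _ = 2 * (C * ((8000000 : ℝ) ^ 4) ^ (ε / 8)) * (m : ℝ) ^ ε := by ring
  have h3 := sum_le_sum h2
  rw [sum_const, nsmul_eq_mul] at h3
  have h4 : (0 : ℝ) ≤ 2 * (C * ((8000000 : ℝ) ^ 4) ^ (ε / 8)) * (m : ℝ) ^ ε := by
    have : 0 ≤ C := by linarith
    positivity
  have h5 := mul_le_mul_of_nonneg_right (b3_cardW hm) h4
  refine (h1.trans (h3.trans h5)).trans (le_of_eq ?_)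
  rw [Real.rpow_add hm0, show (7 : ℝ) = ((7 : ℕ) : ℝ) by norm_num, Real.rpow_natCast]
  ring

end Pool.Helper16.NR
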