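import Mathlib
import Pool.Agent.Helper16.NR.Stmts2

/-! The rank of the reduced curve is at least two. -/

set_option autoImplicit false

namespace Pool.Helper16.NR

theorem trk_five : (5 : ZMod 5) = 0 := by decide

theorem trk_z5 (n : ℕ) : ((55 * (n : ℤ) : ℤ) : ZMod 5) = 0 := by
  push_cast
  have h : (55 : ZMod 5) = 0 := by decide
  rw [h, zero_mul]

theorem trk_z11 (n : ℕ) : ((55 * (n : ℤ) : ℤ) : ZMod 11) = 0 := by
  push_cast
  have h : (55 : ZMod 11) = 0 := by decide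
  rw [h, zero_mul]

theorem trk_res5 (t : ℕ × ℕ × ℕ × ℕ) : (tx1 t : ZMod 5) = 0 ∧ (tx2 t : ZMod 5) = 2 ∧
    (tu t : ZMod 5) = 0 ∧ (tv t : ZMod 5) = 1 := by
  unfold tx1 tx2 tu tv
  refine ⟨?_, ?_, trk_z5 _, ?_⟩
  · rw [Int.cast_add, trk_z5]
    decide
  · rw [Int.cast_add, trk_z5]
    decide
  · rw [Int.cast_add, trk_z5]
    decide

theorem trk_res11 (t : ℕ × ℕ × ℕ × ℕ) : (tx1 t : ZMod 11) = 3 ∧ (tx2 t : ZMod 11) = 9 ∧
    (tu t : ZMod 11) = 0 ∧ (tv t : ZMod 11) = 1 := by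
  unfold tx1 tx2 tu tv
  refine ⟨?_, ?_, trk_z11 _, ?_⟩
  · rw [Int.cast_add, trk_z11]
    decide
  · rw [Int.cast_add, trk_z11]
    decide
  · rw [Int.cast_add, trk_z11]
    decide

theorem trk_on (t : ℕ × ℕ × ℕ × ℕ) :
    (tu t * tx1 t + tv t) ^ 2 = tx1 t ^ 3 + tA t * tx1 t + tB t ∧
    (tu t * tx2 t + tv t) ^ 2 = tx2 t ^ 3 + tA t * tx2 t + tB t := by
  unfold tA tB tx3
  constructor <;> ring

theorem trk_R5 : R5 0 2 1 := by
  unfold R5 fp
  decide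

theorem trk_R11 : R11 3 9 1 := by
  unfold R11 fp
  decide

theorem st_TRK (hRK : ST_RK) : ST_TRK := by
  intro m t _ A B w hA hB
  obtain ⟨a1, a2, a3, a4⟩ := trk_res5 t
  obtain ⟨b1, b2, b3, b4⟩ := trk_res11 t
  obtain ⟨c1, c2⟩ := trk_on t
  have y5 : ((tu t * tx1 t + tv t : ℤ) : ZMod 5) = 1 := by
    push_cast
    rw [a3, a4, a1]
    decide
  have y5' : ((tu t * tx2 t + tv t : ℤ) : ZMod 5) = 1 := by
    push_cast
    rw [a3, a4, a2]
    decide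
  have y11 : ((tu t * tx1 t + tv t : ℤ) : ZMod 11) = 1 := by
    push_cast
    rw [b3, b4, b1]
    decide
  have y11' : ((tu t * tx2 t + tv t : ℤ) : ZMod 11) = 1 := by
    push_cast
    rw [b3, b4, b2]
    decide
  refine hRK A B w (tx1 t) (tu t * tx1 t + tv t) (tx2 t) (tu t * tx2 t + tv t) ?_ ?_ ?_ ?_ ?_ ?_
    ?_ ?_
  · rw [c1, hA, hB]
  · rw [c2, hA, hB]
  · intro h0
    have h1 : 4 * tA t ^ 3 + 27 * tB t ^ 2 = 0 := by
      rw [hA, hB]
      have e : 4 * (A * w ^ 4) ^ 3 + 27 * (B * w ^ 6) ^ 2 =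
          (4 * A ^ 3 + 27 * B ^ 2) * w ^ 12 := by ring
      rw [e, h0, zero_mul]
    have h2 : ((4 * tA t ^ 3 + 27 * tB t ^ 2 : ℤ) : ZMod 11) = 0 := by
      rw [h1]
      rfl
    have h3 : ((4 * tA t ^ 3 + 27 * tB t ^ 2 : ℤ) : ZMod 11) = 7 := by
      unfold tA tB tx3
      push_cast
      rw [b1, b2, b3, b4]
      decide
    rw [h3] at h2
    exact absurd h2 (by decide)
  · rw [y5, y5']
  · rw [a1, a2, y5]
    exact trk_R5
  · rw [y11, y11']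
  · rw [y11]
    decide
  · rw [b1, b2, y11]
    exact trk_R11

end Pool.Helper16.NR
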